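import Mathlib
import Pool.Agent.Y68.NP.Cl

/-!
Classification of the linear nonabelian Poisson brackets over every commutative ring in which `6` is
invertible (fields of characteristic other than `2` and `3`, `ℤ[1/6]`, rings of parameters, dual
numbers, ...), for every number of generators.
-/

namespace Pool.Agent.Results.MP_2bcfbf_mp.CommutativeRings

open Pool.Agent.Y68.NP

/-- Let `K` be a commutative ring in which `6` is a unit.  The constants `b_ij^k`, `bb_ij^k` of `K`
define a nonabelian Poisson bracket on the quotient of the free associative `K`-algebra on `N`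
generators by the span of the commutators if and only if
`b_ij^k = m_ij^k + p_i δ_jk + q_j δ_ik` and `bb_ij^k = - m_ji^k - p_i δ_jk - q_j δ_ik`
where `p`, `q` are arbitrary vectors and `m_ij^k` are the structure constants
`e_i e_j = ∑_k m_ij^k e_k + lam_ij 1` of an associative product with unit `1` on the free module
`K 1 ⊕ K e_1 ⊕ ... ⊕ K e_N`. -/
theorem result (K : Type) [CommRing K] (h6 : IsUnit (6 : K)) (N : ℕ)
    (b bb : Fin N → Fin N → Fin N → K) :
    IsPoisson b bb ↔
      ∃ (m : Fin N → Fin N → Fin N → K) (lam : Fin N → Fin N → K) (p q : Fin N → K),
        (∀ x y z : K × (Fin N → K),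
          mulU m lam (mulU m lam x y) z = mulU m lam x (mulU m lam y z)) ∧
        (∀ i j k, b i j k
          = m i j k + p i * (if j = k then 1 else 0) + q j * (if i = k then 1 else 0)) ∧
        (∀ i j k, bb i j k
          = - m j i k - p i * (if j = k then 1 else 0) - q j * (if i = k then 1 else 0)) := by
  have := h6.invertible
  exact main N b bb

end Pool.Agent.Results.MP_2bcfbf_mp.CommutativeRings
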